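import Pool.Agent.Work.MP_1ec257_lc.Ext2

/-! From a strongly compact cardinal: a model of ZFC with a measurable cardinal `k` that has the
`k⁺`-gluing property but not the `k⁺`-gluing property via ultrafilters. -/

namespace Pool.Agent.Results.MP_1ec257_lc.NotViaUltrafilters
open Pool.Agent.Lib.ZFModel Pool.Agent.Work.MP_1ec257_lc

theorem result (κ : Cardinal.{0}) (h : StronglyCompact κ) :
    ∃ (M : Type 1) (E : M → M → Prop), IsZFC E ∧ ∃ k l, IsMeasurableCard E k ∧ IsSuccCard E l k ∧
      GP E k l ∧ ¬ GPU E k l :=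
  main h

end Pool.Agent.Results.MP_1ec257_lc.NotViaUltrafilters
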